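import Pool.Agent.Lib.MP_9277c3_lc.RN.Top

/-!
# MP_9277c3_lc: nondeterministic pushdown automata, runs of small rank

For every one-way nondeterministic pushdown automaton `M` and every constant `b`, the set of the
words `x` which `M` accepts by a run of rank at most `b (log n) ^ (1 / 2)` above the height
`b (log n) ^ (3 / 2)` of the stack is accepted by a nondeterministic Turing machine in space
`O((log n) ^ (3 / 2))`. The rank is the Strahler number of the nondeterminism: a run without choices
has rank zero; there is no condition on the choices which are made when the stack is low.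
-/

namespace Pool.Agent.Results.MP_9277c3_lc.RankNondeterminism

open Pool.Agent.Lib.MP_9277c3_lc

/-- The words which are accepted by runs of rank at most `b * s` above the height `b * (L * s)`,
where `L = log2 (n + 2)` and `s = sqrt L + 1`, are accepted in space `c * (L * s)`. -/
theorem result (α : Type) [Finite α] (M : NPDA α) (hM : M.OneWay) (b : ℕ) :
    ∃ (c : ℕ) (A : NTM α),
      A.AcceptsIn (fun x => M.AcceptsRank
        (b * (Nat.log 2 (x.length + 2) * (Nat.sqrt (Nat.log 2 (x.length + 2)) + 1)))
        (b * (Nat.sqrt (Nat.log 2 (x.length + 2)) + 1)) x)
      fun n => c * (Nat.log 2 (n + 2) * (Nat.sqrt (Nat.log 2 (n + 2)) + 1)) :=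
  RN.rank_nondeterminism α M hM b

end Pool.Agent.Results.MP_9277c3_lc.RankNondeterminism
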