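import Pool.Agent.Lib.MP_9277c3_lc.RKT.Real

/-!
# MP_9277c3_lc: deterministic context-free languages and read-k-times branching programs

A fixed language of a one-way deterministic pushdown automaton needs, for every `k`,
nondeterministic syntactic read-`k`-times branching programs of size `n ^ Ω(log n)`.
-/

namespace Pool.Agent.Results.MP_9277c3_lc.ReadTimes

open Pool.Agent.Lib.MP_9277c3_lc

/-- There is a one-way deterministic pushdown automaton `M`, every move of which shifts the head to
the right, such that for every `k` there is `c > 0` with: for all large `n` every nondeterministic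
syntactic read-`k`-times branching program, which accepts exactly the words of length `n` accepted
by `M`, has at least `n ^ (c log n)` nodes. -/
theorem result :
    ∃ (α : Type) (_ : Fintype α) (M : DPDA α),
      (∀ q c X q' mv β, M.next q c X = some (q', mv, β) → mv = Move.right) ∧
      ∀ k : ℕ, ∃ c : ℝ, 0 < c ∧ ∀ᶠ n : ℕ in Filter.atTop, ∀ B : NBP α n, B.ReadTimes k →
        (∀ x : Fin n → α, B.Accepts x ↔ M.Accepts (List.ofFn x)) →
        (n : ℝ) ^ (c * Real.log n) ≤ B.size :=
  RKT.lower

end Pool.Agent.Results.MP_9277c3_lc.ReadTimes
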