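import Pool.Agent.Lib.MP_9277c3_lc.TN.Turns

/-!
# MP_9277c3_lc: deterministic context-free languages, space and turns

Every language accepted by a one-way deterministic pushdown automaton `M` is decided by one
deterministic Turing machine whose space on an input `x` of length `n` is
`O(log n * (1 + log R / log log n))`, where `R` is the smaller one of `n` and the number of turns of
the run of `M` on `x`: `O((log n) ^ 2 / log log n)` on all inputs, and `O(log n)` on the inputs on
which `M` makes at most polylogarithmically many turns.
-/

namespace Pool.Agent.Results.MP_9277c3_lc.TurnSpace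

open Pool.Agent.Lib.MP_9277c3_lc

/-- The space needed for the language of a one-way deterministic pushdown automaton depends on the
number of turns of the run on the given input. -/
theorem result (α : Type) [Finite α] (M : DPDA α)
    (hM : ∀ q c X q' mv β, M.next q c X = some (q', mv, β) → mv ≠ Move.left) :
    ∃ (c : ℕ) (A : TM α), A.Decides M.Accepts ∧ ∀ (x : List α) (R : ℕ),
      (x.length ≤ R ∨ M.TurnsLe R x) →
        A.SpaceOn x (c * (Nat.log 2 (x.length + 2) *
          (Nat.log 2 (R + 1) / (Nat.log 2 (Nat.log 2 (x.length + 2)) + 1) + 1))) :=
  TN.turns_oneway α M hM

end Pool.Agent.Results.MP_9277c3_lc.TurnSpace
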