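import Pool.Agent.Lib.MP_9277c3_lc.NP.TopT

/-!
# MP_9277c3_lc: deterministic context-free languages in nondeterministic space `(log n) ^ (3 / 2)`

Every language accepted by a one-way deterministic pushdown automaton, and its complement, is
accepted by an unambiguous nondeterministic Turing machine in polynomial time and space
`O((log n) ^ (3 / 2))`.
-/

namespace Pool.Agent.Results.MP_9277c3_lc.UnambiguousThreeHalves

open Pool.Agent.Lib.MP_9277c3_lc

/-- The languages of one-way deterministic pushdown automata, and their complements, are accepted by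
unambiguous nondeterministic machines in polynomial time and space `(log n) ^ (3 / 2)`. -/
theorem result (α : Type) [Finite α] (M : DPDA α)
    (hM : ∀ q c X q' mv β, M.next q c X = some (q', mv, β) → mv ≠ Move.left) :
    ∃ (c e : ℕ) (A₁ A₂ : NTM α),
      ((A₁.AcceptsIn M.Accepts fun n =>
        c * (Nat.log 2 (n + 2) * (Nat.sqrt (Nat.log 2 (n + 2)) + 1))) ∧
        (A₁.TimeIn fun n => (n + 2) ^ e) ∧ A₁.Unambiguous) ∧
      (A₂.AcceptsIn (fun x => ¬M.Accepts x) fun n =>
        c * (Nat.log 2 (n + 2) * (Nat.sqrt (Nat.log 2 (n + 2)) + 1))) ∧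
        (A₂.TimeIn fun n => (n + 2) ^ e) ∧ A₂.Unambiguous :=
  NS.dpda_unambiguous_time α M hM

end Pool.Agent.Results.MP_9277c3_lc.UnambiguousThreeHalves
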